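import Pool.Agent.W424.KI.Stm
import Pool.Agent.W808.HU.Stm

/-!
# Project KI, part TRP: traps
-/

set_option autoImplicit false

namespace Pool.Agent.W699.KI
open H974 H906.Cyl
open H12S (Nr)
open Pool.Agent.H160R2.ML (nm)
open Pool.Agent.H160R2.MU (PC Cc)
open Pool.Agent.W424.KI

namespace TRP

theorem edz_t (x y : ℤ) : edz (x + y + 1) (dco (x, y, true)) = (x + 1, y, false) := by
  unfold edz dco
  simp only [if_true]
  rw [if_neg (by omega)]
  simp only [Prod.mk.injEq, and_true]
  omega

theorem edz_f (x y : ℤ) : edz (x + y + 1) (dco (x, y, false)) = (x, y + 1, true) := by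
  unfold edz dco
  simp only [Bool.false_eq_true, if_false]
  rw [if_pos (by omega)]
  simp only [Prod.mk.injEq, and_true]
  omega

theorem core {c n M l' l D : ℕ} (hD : 8 ≤ D) (hn : n = 16 * D) (hM : M = 4 * n)
    (hl : 4 * l' ≤ D) (hll : l' ≤ l) {F : Finset Edg} (h : Pool.Agent.W808.HU.PTr c n M l' F)
    (G : Set Edg) (hG : ∀ e ∈ boxE (4 * D), (e ∈ G ↔ red n e ∈ F)) (u v : Vtx)
    (hu : nm u ≤ 2 * (D : ℤ)) (hR : Reach (Cp c G) u v) : Nr (4 * l) u v := by
  have hu' := hu
  unfold nm at hu'
  rw [max_le_iff, abs_le, abs_le] at hu'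
  have huu : |u.1 - u.2| ≤ 2 * (n : ℤ) := by
    rw [abs_le]
    omega
  have key : Reach (Cc c n M F) u v ∧ Nr (4 * l') u v := by
    induction hR with
    | refl =>
      refine ⟨Reach.refl _ _, ?_⟩
      unfold Nr
      simp
    | @tail b v' _ hbv ih =>
      obtain ⟨ih1, ih2⟩ := ih
      obtain ⟨e, he, hadj⟩ := hbv
      unfold Nr at ih2
      rw [abs_le, abs_le] at ih2
      have hb : (-(3 * (D : ℤ)) ≤ b.1 ∧ b.1 ≤ 3 * D) ∧ (-(3 * (D : ℤ)) ≤ b.2 ∧ b.2 ≤ 3 * D) := by
        omega
      have he' : e ∈ Cc c n M F := by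
        obtain ⟨x, y, bo⟩ := e
        have hxy : (-(3 * (D : ℤ)) - 1 ≤ x ∧ x ≤ 3 * D) ∧ (-(3 * (D : ℤ)) - 1 ≤ y ∧ y ≤ 3 * D) := by
          cases bo
          · rw [src_mk, tgt_false] at hadj
            rcases hadj with ⟨h1, -⟩ | ⟨-, h1⟩
            · rw [← h1] at hb
              simp only at hb
              omega
            · rw [← h1] at hb
              simp only at hb
              omega
          · rw [src_mk, tgt_true] at hadj
            rcases hadj with ⟨h1, -⟩ | ⟨-, h1⟩
            · rw [← h1] at hb
              simp only at hb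
              omega
            · rw [← h1] at hb
              simp only at hb
              omega
        have he2 : if c = 0 then ((x, y, bo) : Edg) ∈ G else edz (x + y + 1) (dco (x, y, bo)) ∉ G :=
          he
        change if c = 0 then ((x, y, bo) : Edg) ∈ per n F else
          -(M : ℤ) ≤ dco (x, y, bo) ∧ dco (x, y, bo) < M ∧
            edz (x + y + 1) (dco (x, y, bo)) ∉ per n F
        by_cases hc : c = 0
        · rw [if_pos hc] at he2 ⊢
          refine (hG _ ?_).1 he2
          unfold boxE
          cases bo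
          · rw [mem_RE_false]
            push_cast
            omega
          · rw [mem_RE_true]
            push_cast
            omega
        · rw [if_neg hc] at he2 ⊢
          refine ⟨?_, ?_, ?_⟩
          · unfold dco
            cases bo
            · simp only [Bool.false_eq_true, if_false]
              omega
            · simp only [if_true]
              omega
          · unfold dco
            cases bo
            · simp only [Bool.false_eq_true, if_false]
              omega
            · simp only [if_true]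
              omega
          · intro hmem
            apply he2
            refine (hG _ ?_).2 hmem
            unfold boxE
            cases bo
            · rw [edz_f, mem_RE_true]
              push_cast
              omega
            · rw [edz_t, mem_RE_false]
              push_cast
              omega
      have hR' : Reach (Cc c n M F) u v' := Relation.ReflTransGen.tail ih1 ⟨e, he', hadj⟩
      exact ⟨hR', h u v' huu hR'⟩
  obtain ⟨-, k1, k2⟩ := key
  have h4 : (4 * (l' : ℤ)) ≤ 4 * l := by omega
  exact ⟨k1.trans h4, k2.trans h4⟩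

end TRP

theorem t_TRP : Pool.Agent.W808.HU.S_TRP → S_TRP := by
  intro hT L M4 hL hM4
  obtain ⟨κ, hκ, r0, h⟩ := hT (16 * L) (4 * M4) (by omega) (by omega)
  refine ⟨κ, hκ, max r0 8, fun c r R hc hr hR => ?_⟩
  have hr1 : 8 ≤ r := le_trans (le_max_right _ _) hr
  have h1 := h c r hc (le_trans (le_max_left _ _) hr)
  set D : ℕ := L * r with hD
  have hDr : r ≤ D := Nat.le_mul_of_pos_left r hL
  have hn : 16 * L * r = 16 * D := by rw [hD, mul_assoc]
  rw [hn] at h1
  set n : ℕ := 16 * D with hn'
  set l' : ℕ := r / (4 * M4) with hl'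
  have hl4 : 4 * l' ≤ D := by
    have h2 : 4 * M4 * l' ≤ r := Nat.mul_div_le r (4 * M4)
    have h3 : 4 * l' ≤ 4 * M4 * l' := Nat.mul_le_mul_right _ (by omega)
    omega
  have hll : l' ≤ r / M4 := Nat.div_le_div_left (by omega) (by omega)
  -- the local event
  let A : Finset Edg → Prop := fun F =>
    ∀ G : Set Edg, (∀ e ∈ boxE (4 * D), (e ∈ G ↔ e ∈ F)) → PTr c L r (r / M4) G
  have ok := okq (q := 1/2) (by norm_num) (by norm_num)
  have e1 : Pr (fun _ => (1 / 2 : ℝ)) (CE n (4 * n))
      (fun F => A ((boxE (4 * D)).filter (fun e => red n e ∈ F))) =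
      Pr (fun _ => (1 / 2 : ℝ)) (boxE (4 * D)) A := by
    refine Pr_red ?_ ?_ A
    · unfold boxE
      exact red_inj_x (by push_cast; omega)
    · unfold boxE
      exact image_red_sub (by omega) (by push_cast; omega) (by push_cast; omega)
  have hsub : boxE (4 * D) ⊆ boxE R := boxE_mono hR
  have e2 : Pr (fun _ => (1 / 2 : ℝ)) (boxE R) A = Pr (fun _ => (1 / 2 : ℝ)) (boxE (4 * D)) A := by
    refine Pr_local hsub fun F _ => ?_
    have : ∀ e ∈ boxE (4 * D), (e ∈ F ∩ boxE (4 * D) ↔ e ∈ F) := fun e he => by
      rw [Finset.mem_inter]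
      exact ⟨fun h => h.1, fun h => ⟨h, he⟩⟩
    constructor
    · intro hA G hG
      exact hA G fun e he => (hG e he).trans (this e he)
    · intro hA G hG
      exact hA G fun e he => (hG e he).trans (this e he).symm
  calc κ ≤ PC n (4 * n) (Pool.Agent.W808.HU.PTr c n (4 * n) l') := h1
    _ ≤ Pr (fun _ => (1 / 2 : ℝ)) (CE n (4 * n))
        (fun F => A ((boxE (4 * D)).filter (fun e => red n e ∈ F))) := by
        unfold PC
        refine Pr_mono ok fun F _ hF => ?_
        intro G hG u v hu hRe
        refine TRP.core (D := D) (by omega) rfl rfl hl4 hll hF G (fun e he => ?_) u v ?_ hRe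
        · rw [hG e he, Finset.mem_filter]
          exact ⟨fun h => h.2, fun h => ⟨he, h⟩⟩
        · rw [hD]
          exact_mod_cast hu
    _ = Pr (fun _ => (1 / 2 : ℝ)) (boxE R) A := by rw [e1, e2]
    _ ≤ PF R (fun F => PTr c L r (r / M4) (↑F : Set Edg)) := by
        unfold PF
        refine Pr_mono ok fun F _ hF => ?_
        exact hF _ fun e _ => Finset.mem_coe

end Pool.Agent.W699.KI
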